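import Mathlib

/-!
Every finite digraph has an arc-binding set-indexer that attains the extremal bound
`|f u \ f v| = min |f u| (|f v| - 1)` on every arc.
-/

set_option autoImplicit false

namespace Pool.Agent.Results.MP_95765a_co.AllDigraphs

variable {V X : Type}

/-- `f` is a set-indexer of the digraph with arc relation `A`: the map `f` is injective and the
induced arc function `(u, v) ↦ f u \ f v` is injective on the arcs. -/
def IsSetIndexer (A : V → V → Prop) (f : V → Set X) : Prop :=
  Function.Injective f ∧
    ∀ u v u' v', A u v → A u' v' → f u \ f v = f u' \ f v' → u = u' ∧ v = v'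

/-- `f` is arc-binding. -/
def IsArcBinding (A : V → V → Prop) (f : V → Set X) : Prop :=
  ∀ u v, A u v → (f u \ f v).ncard < (f v).ncard

/-- Equality in the extremal arc bound on every arc. -/
def IsExtremal (A : V → V → Prop) (f : V → Set X) : Prop :=
  ∀ u v, A u v → (f u \ f v).ncard = min (f u).ncard ((f v).ncard - 1)

/-- The set-valuation: `v` gets all unordered pairs (loops allowed) that contain `v`. -/
def star (v : V) : Set (Option (Sym2 V)) := Set.range fun w => some s(v, w)

lemma mem_star {v a b : V} : some s(a, b) ∈ star v ↔ a = v ∨ b = v := by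
  unfold star
  simp only [Set.mem_range, Option.some.injEq, Sym2.eq_iff]
  constructor
  · rintro ⟨w, ⟨h, _⟩ | ⟨h, _⟩⟩
    · exact Or.inl h.symm
    · exact Or.inr h.symm
  · rintro (rfl | rfl)
    · exact ⟨b, Or.inl ⟨rfl, rfl⟩⟩
    · exact ⟨a, Or.inr ⟨rfl, rfl⟩⟩

lemma star_inj (v : V) : Function.Injective fun w => (some s(v, w) : Option (Sym2 V)) := by
  intro w w' h
  simp only [Option.some.injEq, Sym2.eq_iff] at h
  rcases h with h | h
  · exact h.2
  · exact h.2.trans h.1

lemma ncard_star [Finite V] (v : V) : (star v).ncard = Nat.card V := by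
  unfold star
  rw [← Set.image_univ, Set.ncard_image_of_injective _ (star_inj v), Set.ncard_univ]

lemma star_diff {u v : V} (h : u ≠ v) :
    star u \ star v = star u \ {some s(u, v)} := by
  ext x
  constructor
  · rintro ⟨h1, h2⟩
    refine ⟨h1, ?_⟩
    rintro rfl
    exact h2 (mem_star.2 (Or.inr rfl))
  · rintro ⟨h1, h2⟩
    refine ⟨h1, fun h3 => h2 ?_⟩
    obtain ⟨w, rfl⟩ := h1
    rcases mem_star.1 h3 with h4 | h4
    · exact absurd h4 h
    · subst h4
      rfl

/-- Every finite digraph (without loops) has a set-indexer over a finite nonempty ground set that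
is arc-binding and attains `|f u \ f v| = min |f u| (|f v| - 1)` on every arc `(u, v)`. So the
digraphs in question are all digraphs. -/
theorem result (V : Type) [Finite V] (A : V → V → Prop) (hA : ∀ v, ¬ A v v) :
    ∃ (X : Type) (_ : Finite X) (_ : Nonempty X) (f : V → Set X),
      IsSetIndexer A f ∧ IsArcBinding A f ∧ IsExtremal A f := by
  have hne : ∀ u v, A u v → u ≠ v := by
    rintro u v h rfl
    exact hA _ h
  have hcard : ∀ u v, A u v →
      (star u \ star v).ncard = Nat.card V - 1 := by
    intro u v h
    rw [star_diff (hne u v h), Set.ncard_sdiff_singleton_of_mem, ncard_star]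
    exact mem_star.2 (Or.inl rfl)
  have hpos : ∀ u : V, 0 < Nat.card V := by
    intro u
    have : Nonempty V := ⟨u⟩
    exact Nat.card_pos
  have hdiag : ∀ u v : V, some s(u, u) ∈ star v → u = v := by
    intro u v h
    rcases mem_star.1 h with h | h <;> exact h
  refine ⟨Option (Sym2 V), inferInstance, inferInstance, star, ⟨?_, ?_⟩, ?_, ?_⟩
  · intro u v h
    apply hdiag
    rw [← h]
    exact mem_star.2 (Or.inl rfl)
  · intro u v u' v' h1 h2 h
    have huu : u = u' := by
      apply hdiag
      have h3 : some s(u, u) ∈ star u \ star v :=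
        ⟨mem_star.2 (Or.inl rfl), fun h4 => hne u v h1 (hdiag _ _ h4)⟩
      rw [h] at h3
      exact h3.1
    subst huu
    refine ⟨rfl, ?_⟩
    by_contra hvv
    have h3 : some s(u, v) ∈ star u \ star v' := by
      refine ⟨mem_star.2 (Or.inl rfl), fun h4 => ?_⟩
      rcases mem_star.1 h4 with h5 | h5
      · exact hne u v' h2 h5
      · exact hvv h5
    rw [← h] at h3
    exact h3.2 (mem_star.2 (Or.inr rfl))
  · intro u v h
    rw [hcard u v h, ncard_star]
    have := hpos u
    omega
  · intro u v h
    rw [hcard u v h, ncard_star, ncard_star]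
    omega

end Pool.Agent.Results.MP_95765a_co.AllDigraphs
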